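import Mathlib

/-!
Project SF (MP_83fd13_an, Schiffer's conjecture): if the conformal map `φ(w) = ∑ a n w^n` of the
unit disc onto a domain carrying a nontrivial solution of (S) has radius of convergence exactly
`ρ ∈ (1, ∞)`, then `λ · max_{|w| = 1/ρ} |w φ'(w)| · limsup |a n| ρ^n ≥ 3`.

`ℓ = log ρ`, `κ = λ / 4`, everything is written in the logarithmic variable `τ = log w`:
`P φ τ = φ(e^τ)` (for `Re τ < ℓ`), `Q φ τ = φ'(e^τ) e^τ` (its derivative), `Ψ` the reflected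
function (`Ψ(iθ) = conj φ(e^{iθ})`, analytic for `-ℓ < Re τ`, `2πi`-periodic).

The statements (`def X : Prop`) are the building blocks of the proof.
-/

set_option autoImplicit false

open MeasureTheory Complex Metric Set Filter Topology
open scoped Real ComplexConjugate

namespace Pool.Agent.Y251.SF

/-! ### definitions -/

/-- `φ(e^τ)` -/
noncomputable def P (φ : ℂ → ℂ) (τ : ℂ) : ℂ := φ (Complex.exp τ)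

/-- the derivative of `P φ`: `φ'(e^τ) e^τ` -/
noncomputable def Q (φ : ℂ → ℂ) (τ : ℂ) : ℂ := deriv φ (Complex.exp τ) * Complex.exp τ

/-- the strip `a < Re τ < b` -/
def strip (a b : ℝ) : Set ℂ := {τ | a < τ.re ∧ τ.re < b}

/-- the integral of `G` along the segment from `β` to `τ` -/
noncomputable def seg (G : ℂ → ℂ) (β τ : ℂ) : ℂ :=
  (τ - β) * ∫ t in (0 : ℝ)..1, G (β + (t : ℂ) * (τ - β))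

/-- the integral of `θ ↦ G (x + iθ)` over `[0, 2π]` -/
noncomputable def ver (G : ℂ → ℂ) (x : ℝ) : ℂ :=
  ∫ θ in (0 : ℝ)..(2 * π), G ((x : ℂ) + (θ : ℂ) * I)

/-- the kernel `K₂(u, p) = (1 / 2πi) ∮_{|s| = 1} s exp (s u - κ p / s) ds` -/
noncomputable def K2 (κ : ℝ) (u p : ℂ) : ℂ :=
  (2 * (π : ℂ) * I)⁻¹ * ∮ s in C(0, 1), s * Complex.exp (s * u - (κ : ℂ) * p / s)

/-- `exp (s φ(e^τ) - κ Ψ(τ) / s) φ'(e^τ) e^τ` -/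
noncomputable def E (φ Ψ : ℂ → ℂ) (κ : ℝ) (s τ : ℂ) : ℂ :=
  Complex.exp (s * P φ τ - (κ : ℂ) * Ψ τ / s) * Q φ τ

/-- the Volterra integral along the segment from `β` to `τ` -/
noncomputable def V (φ Ψ : ℂ → ℂ) (κ : ℝ) (β τ : ℂ) : ℂ :=
  seg (fun σ => K2 κ (P φ σ - P φ τ) (Ψ σ) * Q φ σ) β τ

/-- the function `R` -/
noncomputable def R (φ Ψ : ℂ → ℂ) (κ : ℝ) (β τ : ℂ) : ℂ :=
  Ψ τ + (κ : ℂ)⁻¹ * V φ Ψ κ β τ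

/-- the standing data -/
structure Dat (φ Ψ : ℂ → ℂ) (ℓ κ : ℝ) : Prop where
  ℓpos : 0 < ℓ
  κpos : 0 < κ
  dφ : DifferentiableOn ℂ φ (ball 0 (Real.exp ℓ))
  inj : InjOn φ (ball 0 1)
  dΨ : DifferentiableOn ℂ Ψ {τ : ℂ | -ℓ < τ.re}
  perΨ : ∀ τ : ℂ, -ℓ < τ.re → Ψ (τ + 2 * (π : ℂ) * I) = Ψ τ
  circ : ∀ s : ℂ, s ≠ 0 → ∀ x : ℝ, |x| < ℓ → ver (E φ Ψ κ s) x = 0

/-- the power series `∑ a n w^n` -/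
noncomputable def ph (a : ℕ → ℂ) (w : ℂ) : ℂ := ∑' n : ℕ, a n * w ^ n

/-- the series `∑ conj (a n) e^{-nτ}` -/
noncomputable def ps (a : ℕ → ℂ) (τ : ℂ) : ℂ := ∑' n : ℕ, conj (a n) * Complex.exp (-(n : ℂ) * τ)

/-! ### general tools -/

/-- PRIM: primitives on convex sets -/
def S_PRIM : Prop :=
  ∀ (S : Set ℂ) (G : ℂ → ℂ) (β τ : ℂ), IsOpen S → Convex ℝ S → DifferentiableOn ℂ G S →
    β ∈ S → τ ∈ S → HasDerivAt (fun z => seg G β z) (G τ) τ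

/-- SHIFT: vertical integrals over a period do not depend on the abscissa -/
def S_SHIFT : Prop :=
  ∀ (a b : ℝ) (G : ℂ → ℂ), DifferentiableOn ℂ G (strip a b) →
    (∀ τ ∈ strip a b, G (τ + 2 * (π : ℂ) * I) = G τ) →
    ∀ x ∈ Ioo a b, ∀ y ∈ Ioo a b, ver G x = ver G y

/-- PARAM: holomorphy of integrals depending on a parameter -/
def S_PARAM : Prop :=
  ∀ (U : Set ℂ) (F : ℝ → ℂ → ℂ), IsOpen U →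
    ContinuousOn (fun q : ℝ × ℂ => F q.1 q.2) (Icc (0 : ℝ) 1 ×ˢ U) →
    (∀ t ∈ Icc (0 : ℝ) 1, DifferentiableOn ℂ (F t) U) →
    DifferentiableOn ℂ (fun τ => ∫ t in (0 : ℝ)..1, F t τ) U

/-- K2D: the kernel is entire in both variables -/
def S_K2D : Prop := ∀ κ : ℝ, Differentiable ℂ (fun q : ℂ × ℂ => K2 κ q.1 q.2)

/-- K2B: the bound of the kernel -/
def S_K2B : Prop :=
  ∀ (κ : ℝ) (u p : ℂ), 0 ≤ κ →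
    ‖K2 κ u p‖ ≤ (κ * ‖p‖) ^ 2 / 2 * Real.exp (κ * ‖p‖ * ‖u‖)

/-- K2L: the kernel is Lipschitz in the second variable -/
def S_K2L : Prop :=
  ∀ (κ U N : ℝ) (u p q : ℂ), 0 ≤ κ → ‖u‖ ≤ U → ‖p‖ ≤ N → ‖q‖ ≤ N →
    ‖K2 κ u p - K2 κ u q‖ ≤ κ * Real.exp (U + κ * N) * ‖p - q‖

/-- RES: a residue computation -/
def S_RES : Prop :=
  ∀ p σ : ℂ, 1 < ‖σ‖ →
    (2 * (π : ℂ) * I)⁻¹ * (∮ s in C(0, 1), s / (σ - s) * Complex.exp (-p / s)) =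
      σ * (Complex.exp (-p / σ) - 1 + p / σ)

/-- PARTS: integration by parts over a period -/
def S_PARTS : Prop :=
  ∀ (φ : ℂ → ℂ) (ℓ : ℝ), 0 < ℓ → DifferentiableOn ℂ φ (ball 0 (Real.exp ℓ)) →
    ∀ (H G : ℂ → ℂ), (∀ τ ∈ strip (-ℓ) ℓ, HasDerivAt H (G τ) τ) →
      ContinuousOn G (strip (-ℓ) ℓ) → (∀ τ ∈ strip (-ℓ) ℓ, H (τ + 2 * (π : ℂ) * I) = H τ) →
      ∀ (c : ℂ) (x : ℝ), c ≠ 0 → |x| < ℓ →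
        ver (fun τ => H τ * (Complex.exp (c * P φ τ) * Q φ τ)) x =
          -(c⁻¹ * ver (fun τ => G τ * Complex.exp (c * P φ τ)) x)

/-- FUBV: Fubini for a vertical integral and the integral over the unit circle -/
def S_FUBV : Prop :=
  ∀ (F : ℂ → ℂ → ℂ) (x : ℝ),
    ContinuousOn (fun q : ℂ × ℂ => F q.1 q.2) (sphere (0 : ℂ) 1 ×ˢ {τ : ℂ | τ.re = x}) →
    ver (fun τ => ∮ s in C(0, 1), F s τ) x = ∮ s in C(0, 1), ver (fun τ => F s τ) x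

/-- FUBS: Fubini for the integral along a segment and the integral over the unit circle -/
def S_FUBS : Prop :=
  ∀ (F : ℂ → ℂ → ℂ) (β τ : ℂ),
    ContinuousOn (fun q : ℂ × ℂ => F q.1 q.2) (sphere (0 : ℂ) 1 ×ˢ segment ℝ β τ) →
    seg (fun σ => ∮ s in C(0, 1), F s σ) β τ = ∮ s in C(0, 1), seg (fun σ => F s σ) β τ

/-- SEGC: joint continuity of the integrals along segments -/
def S_SEGC : Prop :=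
  ∀ (F : ℂ → ℂ → ℂ) (S : Set ℂ) (β : ℂ), Convex ℝ S → β ∈ S →
    ContinuousOn (fun q : ℂ × ℂ => F q.1 q.2) (sphere (0 : ℂ) 1 ×ˢ S) →
    ContinuousOn (fun q : ℂ × ℂ => seg (F q.1) β q.2) (sphere (0 : ℂ) 1 ×ˢ S)

/-! ### the function `R` -/

/-- FUB: the Volterra integral as a contour integral in `s` -/
def S_FUB : Prop :=
  ∀ (φ Ψ : ℂ → ℂ) (ℓ κ : ℝ), Dat φ Ψ ℓ κ → ∀ β ∈ strip (-ℓ) ℓ, ∀ τ ∈ strip (-ℓ) ℓ,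
    V φ Ψ κ β τ =
      (2 * (π : ℂ) * I)⁻¹ * ∮ s in C(0, 1), s * Complex.exp (-(s * P φ τ)) * seg (E φ Ψ κ s) β τ

/-- VDIFF -/
def S_VDIFF : Prop :=
  ∀ (φ Ψ : ℂ → ℂ) (ℓ κ : ℝ), Dat φ Ψ ℓ κ → ∀ β ∈ strip (-ℓ) ℓ,
    DifferentiableOn ℂ (V φ Ψ κ β) (strip (-ℓ) ℓ)

/-- HPER: the primitives of `E φ Ψ κ s` are periodic -/
def S_HPER : Prop :=
  ∀ (φ Ψ : ℂ → ℂ) (ℓ κ : ℝ), Dat φ Ψ ℓ κ → ∀ s : ℂ, s ≠ 0 → ∀ β ∈ strip (-ℓ) ℓ,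
    (∀ τ ∈ strip (-ℓ) ℓ, HasDerivAt (fun z => seg (E φ Ψ κ s) β z) (E φ Ψ κ s τ) τ) ∧
    (∀ τ ∈ strip (-ℓ) ℓ, seg (E φ Ψ κ s) β (τ + 2 * (π : ℂ) * I) = seg (E φ Ψ κ s) β τ)

/-- VPER -/
def S_VPER : Prop :=
  ∀ (φ Ψ : ℂ → ℂ) (ℓ κ : ℝ), Dat φ Ψ ℓ κ → ∀ β ∈ strip (-ℓ) ℓ, ∀ τ ∈ strip (-ℓ) ℓ,
    V φ Ψ κ β (τ + 2 * (π : ℂ) * I) = V φ Ψ κ β τ

/-- VM1: first Fubini step for the moments of `V` -/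
def S_VM1 : Prop :=
  ∀ (φ Ψ : ℂ → ℂ) (ℓ κ : ℝ), Dat φ Ψ ℓ κ → ∀ β ∈ strip (-ℓ) ℓ, ∀ x : ℝ, |x| < ℓ →
    ∀ σ : ℂ, 1 < ‖σ‖ →
      ver (fun τ => V φ Ψ κ β τ * (Complex.exp (σ * P φ τ) * Q φ τ)) x =
        (2 * (π : ℂ) * I)⁻¹ * ∮ s in C(0, 1), s *
          ver (fun τ => seg (E φ Ψ κ s) β τ * (Complex.exp ((σ - s) * P φ τ) * Q φ τ)) x

/-- VM2: second Fubini step -/
def S_VM2 : Prop :=
  ∀ (φ Ψ : ℂ → ℂ) (ℓ κ : ℝ), Dat φ Ψ ℓ κ → ∀ x : ℝ, |x| < ℓ → ∀ σ : ℂ, 1 < ‖σ‖ →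
    (2 * (π : ℂ) * I)⁻¹ * (∮ s in C(0, 1), s / (σ - s) *
        ver (fun τ => E φ Ψ κ s τ * Complex.exp ((σ - s) * P φ τ)) x) =
      ver (fun τ => Complex.exp (σ * P φ τ) * Q φ τ *
        (σ * (Complex.exp (-((κ : ℂ) * Ψ τ) / σ) - 1 + (κ : ℂ) * Ψ τ / σ))) x

/-- VMOM: the moments of `R` vanish -/
def S_VMOM : Prop :=
  ∀ (φ Ψ : ℂ → ℂ) (ℓ κ : ℝ), Dat φ Ψ ℓ κ → ∀ β ∈ strip (-ℓ) ℓ, ∀ x : ℝ, |x| < ℓ →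
    ∀ σ : ℂ, 1 < ‖σ‖ →
      ver (fun τ => R φ Ψ κ β τ * (Complex.exp (σ * P φ τ) * Q φ τ)) x = 0

/-! ### extension to the disc -/

/-- ANN: periodic functions of `τ` are functions of `w = e^τ` -/
def S_ANN : Prop :=
  ∀ (a b : ℝ) (F : ℂ → ℂ), DifferentiableOn ℂ F (strip a b) →
    (∀ τ ∈ strip a b, F (τ + 2 * (π : ℂ) * I) = F τ) →
    ∃ W : ℂ → ℂ, DifferentiableOn ℂ W {w : ℂ | Real.exp a < ‖w‖ ∧ ‖w‖ < Real.exp b} ∧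
      ∀ τ ∈ strip a b, W (Complex.exp τ) = F τ

/-- CONN: the complement of the image of a smaller closed disc is connected -/
def S_CONN : Prop :=
  ∀ (φ : ℂ → ℂ) (r : ℝ), DifferentiableOn ℂ φ (ball 0 1) → InjOn φ (ball 0 1) → 0 < r → r < 1 →
    IsPreconnected (φ '' closedBall 0 r)ᶜ

/-- CAU: the Cauchy formula in an annulus -/
def S_CAU : Prop :=
  ∀ (a b r R : ℝ) (h : ℂ → ℂ) (z : ℂ), 0 ≤ a → a < r → r < ‖z‖ → ‖z‖ < R → R < b →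
    DifferentiableOn ℂ h {w : ℂ | a < ‖w‖ ∧ ‖w‖ < b} →
    (∮ w in C(0, R), h w / (w - z)) - (∮ w in C(0, r), h w / (w - z)) = 2 * (π : ℂ) * I * h z

/-- CVAN: the Cauchy transform vanishes off the image of the closed disc -/
def S_CVAN : Prop :=
  ∀ (φ W : ℂ → ℂ) (r : ℝ), DifferentiableOn ℂ φ (ball 0 1) → InjOn φ (ball 0 1) → 0 < r → r < 1 →
    ContinuousOn W (sphere 0 r) →
    (∀ σ : ℂ, 1 < ‖σ‖ → (∮ w in C(0, r), W w * (Complex.exp (σ * φ w) * deriv φ w)) = 0) →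
    ∀ ζ : ℂ, ζ ∉ φ '' closedBall 0 r → (∮ w in C(0, r), W w * deriv φ w / (ζ - φ w)) = 0

/-- EXT: extension to the disc -/
def S_EXT : Prop :=
  ∀ (φ W : ℂ → ℂ) (a r₁ : ℝ), 0 < a → a < r₁ → r₁ < 1 → DifferentiableOn ℂ φ (ball 0 1) →
    InjOn φ (ball 0 1) → DifferentiableOn ℂ W {w : ℂ | a < ‖w‖ ∧ ‖w‖ < 1} →
    (∀ r ∈ Ioo a 1, ∀ ζ : ℂ, ζ ∉ φ '' closedBall 0 r →
      (∮ w in C(0, r), W w * deriv φ w / (ζ - φ w)) = 0) →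
    ∃ A : ℂ → ℂ, DifferentiableOn ℂ A (ball 0 r₁) ∧ ∀ w : ℂ, a < ‖w‖ → ‖w‖ < r₁ → A w = W w

/-- VOL: the Volterra equation -/
def S_VOL : Prop :=
  ∀ (φ Ψ : ℂ → ℂ) (ℓ κ : ℝ), Dat φ Ψ ℓ κ → ∀ β ∈ strip (-ℓ) ℓ, ∀ r₁ : ℝ, Real.exp (-ℓ) < r₁ →
    r₁ < 1 → ∃ A : ℂ → ℂ, DifferentiableOn ℂ A (ball 0 r₁) ∧
      ∀ τ : ℂ, -ℓ < τ.re → Real.exp τ.re < r₁ → R φ Ψ κ β τ = A (Complex.exp τ)

/-! ### boundedness -/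

/-- MAX: the maximum principle -/
def S_MAX : Prop :=
  ∀ (A : ℂ → ℂ) (r₁ x M c : ℝ), Real.exp x < r₁ → DifferentiableOn ℂ A (ball 0 r₁) →
    (∀ τ : ℂ, τ.re = x → |τ.im - c| ≤ π → ‖A (Complex.exp τ)‖ ≤ M) →
    ∀ w : ℂ, ‖w‖ ≤ Real.exp x → ‖A w‖ ≤ M

/-- UNI: a bound for the extensions which is uniform in the base point `β` -/
def S_UNI : Prop :=
  ∀ (φ Ψ : ℂ → ℂ) (ℓ κ : ℝ), Dat φ Ψ ℓ κ → ∀ xa xb M₀ : ℝ, -ℓ ≤ xa → xa ≤ xb → -ℓ < xb → xb < 0 →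
    (∀ τ : ℂ, -ℓ < τ.re → xa ≤ τ.re → τ.re ≤ xb → ‖Ψ τ‖ ≤ M₀) →
    ∃ M : ℝ, 0 < M ∧ ∀ β : ℂ, -ℓ < β.re → xa ≤ β.re → β.re ≤ xb →
      ∃ A : ℂ → ℂ, DifferentiableOn ℂ A (ball 0 (Real.exp (xb / 2))) ∧
        (∀ τ : ℂ, -ℓ < τ.re → τ.re ≤ xb → R φ Ψ κ β τ = A (Complex.exp τ)) ∧
        ∀ w : ℂ, ‖w‖ ≤ Real.exp xb → ‖A w‖ ≤ M

/-- GRON: a real variable lemma -/
def S_GRON : Prop :=
  ∀ (X M C η : ℝ), 0 < X → 0 ≤ M → 0 ≤ C → 0 ≤ η → C * η < 1 → ∃ M₀ : ℝ, ∀ f : ℝ → ℝ,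
    ContinuousOn f (Ioc 0 X) → (∀ y ∈ Ioc 0 X, 0 ≤ f y) → (∀ y ∈ Ioc 0 X, y * f y ≤ η) →
    (∀ x ∈ Ioc 0 X, f x ≤ M + C * ∫ y in x..X, f y ^ 2) → ∀ x ∈ Ioc 0 X, f x ≤ M₀

/-- BDD: `Ψ` is bounded near the line `Re τ = -ℓ` -/
def S_BDD : Prop :=
  ∀ (φ Ψ : ℂ → ℂ) (ℓ κ L η : ℝ), Dat φ Ψ ℓ κ → 0 ≤ L → 0 ≤ η → κ * L * η < 3 / 4 →
    (∀ τ : ℂ, τ.re = -ℓ → ‖Q φ τ‖ ≤ L) →
    (∀ η' : ℝ, η < η' → ∃ δ : ℝ, 0 < δ ∧ ∀ τ : ℂ, -ℓ < τ.re → τ.re < -ℓ + δ →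
      (τ.re + ℓ) * ‖Ψ τ‖ ≤ η') →
    ∃ (x₁ M₀ : ℝ), -ℓ < x₁ ∧ ∀ τ : ℂ, -ℓ < τ.re → τ.re ≤ x₁ → ‖Ψ τ‖ ≤ M₀

/-- PICARD: bounds for the derivatives of a solution of the Volterra equation in a small disc, in
terms of the coefficients in a larger disc -/
def S_PICARD : Prop :=
  ∀ (p q B ψ : ℂ → ℂ) (c : ℂ) (r δ κ U L M : ℝ), 0 < δ → δ ≤ r → 0 < κ → 0 ≤ U → 0 ≤ L → 0 < M →
    DifferentiableOn ℂ p (ball c r) → DifferentiableOn ℂ q (ball c r) →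
    DifferentiableOn ℂ B (ball c r) → DifferentiableOn ℂ ψ (ball c δ) →
    (∀ σ ∈ ball c r, ∀ τ ∈ ball c r, ‖p σ - p τ‖ ≤ U) → (∀ σ ∈ ball c r, ‖q σ‖ ≤ L) →
    (∀ σ ∈ ball c r, ‖B σ‖ ≤ M) → (∀ σ ∈ ball c δ, ‖ψ σ‖ ≤ 2 * M) →
    r * L * κ⁻¹ * ((κ * (2 * M)) ^ 2 / 2 * Real.exp (κ * (2 * M) * U)) ≤ M →
    r * L * κ⁻¹ * (κ * Real.exp (U + κ * (2 * M))) ≤ 1 / 2 →
    (∀ τ ∈ ball c δ, ψ τ = B τ - (κ : ℂ)⁻¹ * seg (fun σ => K2 κ (p σ - p τ) (ψ σ) * q σ) c τ) →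
    ∀ k : ℕ, ‖iteratedDeriv k ψ c‖ ≤ k.factorial * (2 * M) / (r / 2) ^ k

/-- DER: uniform bounds for the derivatives -/
def S_DER : Prop :=
  ∀ (φ Ψ : ℂ → ℂ) (ℓ κ x₁ M₀ : ℝ), Dat φ Ψ ℓ κ → -ℓ < x₁ →
    (∀ τ : ℂ, -ℓ < τ.re → τ.re ≤ x₁ → ‖Ψ τ‖ ≤ M₀) →
    ∃ (N r δ : ℝ), 0 < r ∧ 0 < δ ∧ ∀ τ : ℂ, -ℓ < τ.re → τ.re < -ℓ + δ →
      ∀ k : ℕ, ‖iteratedDeriv k Ψ τ‖ ≤ k.factorial * N / r ^ k

/-! ### power series -/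

/-- ANA: analyticity of the series -/
def S_ANA : Prop :=
  ∀ (a : ℕ → ℂ) (ℓ K : ℝ), 0 < ℓ → (∀ n : ℕ, ‖a n‖ * Real.exp ℓ ^ n ≤ K) →
    DifferentiableOn ℂ (ph a) (ball 0 (Real.exp ℓ)) ∧
    DifferentiableOn ℂ (ps a) {τ : ℂ | -ℓ < τ.re} ∧
    (∀ τ : ℂ, -ℓ < τ.re → ps a (τ + 2 * (π : ℂ) * I) = ps a τ) ∧
    (∀ θ : ℝ, ps a ((θ : ℂ) * I) = conj (ph a (Complex.exp ((θ : ℂ) * I))))

/-- LO: growth of `ps a` near the line `Re τ = -ℓ` -/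
def S_LO : Prop :=
  ∀ (a : ℕ → ℂ) (ℓ η : ℝ), 0 < ℓ → 0 ≤ η →
    (∀ᶠ n : ℕ in atTop, ‖a n‖ * Real.exp ℓ ^ n ≤ η) →
    ∀ η' : ℝ, η < η' → ∃ δ : ℝ, 0 < δ ∧ ∀ τ : ℂ, -ℓ < τ.re → τ.re < -ℓ + δ →
      (τ.re + ℓ) * ‖ps a τ‖ ≤ η'

/-- FOUR: decay of the coefficients from bounds for the derivatives -/
def S_FOUR : Prop :=
  ∀ (a : ℕ → ℂ) (ℓ K N r δ : ℝ), 0 < ℓ → (∀ n : ℕ, ‖a n‖ * Real.exp ℓ ^ n ≤ K) → 0 < r → 0 < δ →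
    (∀ τ : ℂ, -ℓ < τ.re → τ.re < -ℓ + δ →
      ∀ k : ℕ, ‖iteratedDeriv k (ps a) τ‖ ≤ k.factorial * N / r ^ k) →
    ∀ n : ℕ, ‖a n‖ * Real.exp (ℓ + r / 2) ^ n ≤ 2 * N

/-! ### the overdetermined problem -/

/-- (S) has a nontrivial weak solution (as in the starting file `AnnularDomains`) -/
def Solvable (Ω : Set ℂ) (lam : ℝ) : Prop :=
  ∃ (c : ℝ) (u : ℂ → ℝ) (G : ℂ → ℂ),
    MemLp u 2 (volume.restrict Ω) ∧ MemLp G 2 (volume.restrict Ω) ∧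
    (∀ φ : ℂ → ℝ, ContDiff ℝ 1 φ → HasCompactSupport φ → ∀ v : ℂ,
      ∫ x in Ω, (u x - c) * (fderiv ℝ φ x v) = - ∫ x in Ω, @inner ℝ ℂ _ (G x) v * φ x) ∧
    (∀ φ : ℂ → ℝ, ContDiff ℝ 1 φ → HasCompactSupport φ →
      ∫ x in Ω, fderiv ℝ φ x (G x) = lam * ∫ x in Ω, u x * φ x) ∧
    ¬ (u =ᵐ[volume.restrict Ω] 0)

/-- FT: vanishing of the integrals of complex exponentials -/
def S_FT : Prop :=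
  ∀ (Ω : Set ℂ) (lam : ℝ), IsOpen Ω → Bornology.IsBounded Ω → 0 < lam → Solvable Ω lam →
    ∀ s : ℂ, s ≠ 0 → ∫ z in Ω, Complex.exp (s * z - ((lam / 4 : ℝ) : ℂ) * conj z / s) = 0

/-- CHV: change of variables under an injective holomorphic map -/
def S_CHV : Prop :=
  ∀ (φ F : ℂ → ℂ), DifferentiableOn ℂ φ (ball 0 1) → InjOn φ (ball 0 1) →
    ∫ z in φ '' ball 0 1, F z = ∫ w in ball (0 : ℂ) 1, F (φ w) * (deriv φ w * conj (deriv φ w))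

/-- AREA: Green's formula on the disc -/
def S_AREA : Prop :=
  ∀ (f g : ℂ → ℂ) (ρ : ℝ), 1 < ρ → DifferentiableOn ℂ f (ball 0 ρ) →
    DifferentiableOn ℂ g (ball 0 ρ) →
    ∫ w in ball (0 : ℂ) 1, f w * conj (deriv g w) =
      (2 * I)⁻¹ * ∮ w in C(0, 1), f w * conj (g w)

/-- CIRC: the identities on vertical lines -/
def S_CIRC : Prop :=
  ∀ (φ Ψ : ℂ → ℂ) (ℓ κ : ℝ), 0 < ℓ → 0 < κ → DifferentiableOn ℂ φ (ball 0 (Real.exp ℓ)) →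
    InjOn φ (ball 0 1) → DifferentiableOn ℂ Ψ {τ : ℂ | -ℓ < τ.re} →
    (∀ τ : ℂ, -ℓ < τ.re → Ψ (τ + 2 * (π : ℂ) * I) = Ψ τ) →
    (∀ θ : ℝ, Ψ ((θ : ℂ) * I) = conj (φ (Complex.exp ((θ : ℂ) * I)))) →
    (∀ s : ℂ, s ≠ 0 → ∫ z in φ '' ball 0 1, Complex.exp (s * z - (κ : ℂ) * conj z / s) = 0) →
    Dat φ Ψ ℓ κ

end Pool.Agent.Y251.SF
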