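import Pool.Agent.Y245.SC.Stm2
import Pool.Agent.Y251.SF.Stm

/-!
Project SF/SC: the sharp order of growth. `-ℓ + i y1` is a point of the critical line, `F = Fc φ`.
-/

set_option autoImplicit false

open Complex MeasureTheory Metric Set Filter Topology ComplexConjugate

namespace Pool.Agent.Y251.SF

open Pool.Agent.Y245.SC

/-- KAP2: the bound of the kernel with the constant `a / 2` -/
def S_KAP2 : Prop := ∀ (a : ℝ) (x : ℂ), 0 ≤ a → ‖kap a x‖ ≤ a / 2 * Real.exp (a * ‖x‖)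

/-- BOOT3: a singularity of order at most `1 / dist` with a small constant is bounded -/
def S_BOOT3 : Prop := ∀ (φ G : ℂ → ℂ) (a ℓ η y1 : ℝ), 0 < a → 0 < ℓ → 0 ≤ η →
  DifferentiableOn ℂ φ (ball 0 (Real.exp ℓ)) → DifferentiableOn ℂ G (ball 0 1) →
  Volt a ℓ φ G →
  a * ‖deriv φ (Complex.exp (((-ℓ : ℝ) : ℂ) + y1 * I)) * Complex.exp (((-ℓ : ℝ) : ℂ) + y1 * I)‖ *
    η < 3 / 4 →
  (∀ η' : ℝ, η < η' → ∃ δ : ℝ, 0 < δ ∧ ∀ ω : ℂ, -ℓ < ω.re → ω.re < -ℓ + δ → |ω.im - y1| < δ →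
    (ℓ + ω.re) * ‖Fc φ ω‖ ≤ η') →
  ∃ δ M : ℝ, 0 < δ ∧ ∀ ω : ℂ, -ℓ < ω.re → ω.re ≤ 0 → |ω.im - y1| < δ → ‖Fc φ ω‖ ≤ M

end Pool.Agent.Y251.SF
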