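import Mathlib

set_option autoImplicit false

open Complex Metric Set Filter Topology

namespace Pool.Agent.Y251.SF

/-- LO2: Abelian step. Taylor coefficients `|a_n| R^n ≤ η` for large `n` give
`(R - |w|) |φ(w)| ≤ η'` near `|w| = R`, for every `η' > η R`. -/
def S_LO2 : Prop := ∀ (φ : ℂ → ℂ) (R η : ℝ), 0 < R → 0 ≤ η →
  DifferentiableOn ℂ φ (ball 0 R) →
  (∀ᶠ n : ℕ in atTop, ‖iteratedDeriv n φ 0 / (n.factorial : ℂ)‖ * R ^ n ≤ η) →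
  ∀ η' : ℝ, η * R < η' → ∃ δ : ℝ, 0 < δ ∧ ∀ w : ℂ, ‖w‖ < R → R - δ < ‖w‖ →
    (R - ‖w‖) * ‖φ w‖ ≤ η'

end Pool.Agent.Y251.SF
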