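import Pool.Agent.Y251.SF.Loc
import Pool.Agent.Y344.SF.Gron
import Pool.Agent.Y167.SF.Boot3
import Pool.Agent.Y458.SF.Kap2
import Pool.Agent.Y564.SF.Lo2

/-!
Assembly in the coordinate of the disc.
-/

set_option autoImplicit false

open Complex MeasureTheory Metric Set Filter Topology ComplexConjugate

namespace Pool.Agent.Y251.SF

open Pool.Agent.Y245.SC

theorem boot3' : S_BOOT3 :=
  Pool.Agent.Y167.SF.boot3 Pool.Agent.Y458.SF.kap2 Pool.Agent.Y769.SC.kap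
    Pool.Agent.Y87.SC.Seg.seg_thm Pool.Agent.Y344.SF.Gron.gron

theorem polar {w₁ : ℂ} {R : ℝ} (hR : 0 < R) (hw : ‖w₁‖ = R) :
    Complex.exp ((Real.log R : ℂ) + Complex.arg w₁ * I) = w₁ ∧
      Complex.exp (((-Real.log R : ℝ) : ℂ) + Complex.arg w₁ * I) = (conj w₁)⁻¹ := by
  have hw0 : w₁ ≠ 0 := by
    rw [← norm_pos_iff, hw]; exact hR
  have h1 : Complex.exp ((Real.log R : ℂ) + Complex.arg w₁ * I) = w₁ := by
    have e : ((Real.log R : ℂ) + Complex.arg w₁ * I) = Complex.log w₁ := by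
      apply Complex.ext
      · rw [Complex.log_re, hw]; simp
      · rw [Complex.log_im]; simp
    rw [e, Complex.exp_log hw0]
  refine ⟨h1, ?_⟩
  have h2 : (((-Real.log R : ℝ) : ℂ) + Complex.arg w₁ * I) =
      -(conj ((Real.log R : ℂ) + Complex.arg w₁ * I)) := by
    simp only [map_add, map_mul, conj_ofReal, conj_I]
    push_cast
    ring
  rw [h2, Complex.exp_neg, Complex.exp_conj, h1]

/-- the extension theorems -/
theorem main {φ : ℂ → ℂ} {r R lam : ℝ} (hr : 1 < r) (hrR : r ≤ R)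
    (hφ : DifferentiableOn ℂ φ (ball 0 R)) (hinj : InjOn φ (ball 0 r))
    (hlam : 0 < lam) (hS : Solvable (φ '' ball 0 1) lam) :
    (∀ w₁ : ℂ, ‖w₁‖ = R → ∀ η : ℝ, (∀ᶠ w in 𝓝[ball 0 R] w₁, (R - ‖w‖) * ‖φ w‖ ≤ η) →
      lam * ‖deriv φ (conj w₁)⁻¹‖ * η < 3 * R ^ 2 →
      ∃ (ε : ℝ) (ψ : ℂ → ℂ), 0 < ε ∧ DifferentiableOn ℂ ψ (ball w₁ ε) ∧
        ∀ w ∈ ball w₁ ε, ‖w‖ < R → ψ w = φ w) ∧
    ((∀ w₁ : ℂ, ‖w₁‖ = R → ∃ η : ℝ, (∀ᶠ w in 𝓝[ball 0 R] w₁, (R - ‖w‖) * ‖φ w‖ ≤ η) ∧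
      lam * ‖deriv φ (conj w₁)⁻¹‖ * η < 3 * R ^ 2) →
      ∃ (R' : ℝ) (ψ : ℂ → ℂ), R < R' ∧ DifferentiableOn ℂ ψ (ball 0 R') ∧
        EqOn ψ φ (ball 0 R)) := by
  have hR : 0 < R := by linarith
  set ℓ := Real.log R with hℓd
  have hRe : Real.exp ℓ = R := Real.exp_log hR
  have hℓ : 0 < ℓ := Real.log_pos (by linarith)
  have hφ' : DifferentiableOn ℂ φ (ball 0 (Real.exp ℓ)) := by rw [hRe]; exact hφ
  obtain ⟨G, hG, hV⟩ := volt_of_solvable (ℓ := ℓ) hr (by rw [hRe]; exact hrR) hφ' hinj hlam hS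
  have ha : 0 < lam / 4 := by positivity
  have hkap := Pool.Agent.Y769.SC.kap
  have hseg := Pool.Agent.Y87.SC.Seg.seg_thm
  have hpar := Pool.Agent.Y769.SC.par
  have hpic := Pool.Agent.Y381.SC.pic
  -- local boundedness
  have hloc : ∀ w₁ : ℂ, ‖w₁‖ = R → ∀ η : ℝ,
      (∀ᶠ w in 𝓝[ball 0 R] w₁, (R - ‖w‖) * ‖φ w‖ ≤ η) →
      lam * ‖deriv φ (conj w₁)⁻¹‖ * η < 3 * R ^ 2 →
      ∃ δ M : ℝ, 0 < δ ∧ ∀ ω : ℂ, -ℓ < ω.re → ω.re ≤ 0 → |ω.im - Complex.arg w₁| < δ →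
        ‖Fc φ ω‖ ≤ M := by
    intro w₁ hw₁ η hη hs
    obtain ⟨p1, p2⟩ := polar hR hw₁
    refine local_ext boot3' (η₀ := max η 0) hℓ hlam hφ' hG hV (le_max_right _ _) ?_ ?_
    · rw [hRe, p1]
      filter_upwards [hη] with w hw
      exact hw.trans (le_max_left _ _)
    · rw [p2, hRe]
      rcases le_total η 0 with h0 | h0
      · rw [max_eq_right h0, mul_zero]; positivity
      · rw [max_eq_left h0]; exact hs
  constructor
  · intro w₁ hw₁ η hη hs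
    obtain ⟨δ, M, hδ, hM⟩ := hloc w₁ hw₁ η hη hs
    obtain ⟨ρ, F', hρ, hF1, hF2⟩ := Pool.Agent.Y79.SC.loc2 hkap hseg hpar hpic φ G (lam / 4) ℓ M
      (Complex.arg w₁) δ ha hℓ hδ hφ' hG hV hM
    obtain ⟨ε, ψ, hε, hψ1, hψ2⟩ := Pool.Agent.Y427.SC.tr φ F' ℓ (Complex.arg w₁) ρ hℓ hρ hF1 hF2
    rw [(polar hR hw₁).1] at hψ1 hψ2
    refine ⟨ε, ψ, hε, hψ1, fun w hw1 hw2 => hψ2 w hw1 (by rw [hRe]; exact hw2)⟩
  · intro h
    have hall : ∀ y1 : ℝ, ∃ δ M : ℝ, 0 < δ ∧ ∀ ω : ℂ, -ℓ < ω.re → ω.re ≤ 0 → |ω.im - y1| < δ →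
        ‖Fc φ ω‖ ≤ M := by
      intro y1
      set w₁ : ℂ := Complex.exp ((ℓ : ℂ) + y1 * I) with hw₁
      have hn : ‖w₁‖ = R := by
        rw [hw₁, Complex.norm_exp]; simp [hRe]
      obtain ⟨η, hη, hs⟩ := h w₁ hn
      have hc : (conj w₁)⁻¹ = Complex.exp (((-ℓ : ℝ) : ℂ) + y1 * I) := by
        rw [hw₁, ← Complex.exp_conj, ← Complex.exp_neg]
        congr 1
        simp only [map_add, map_mul, conj_ofReal, conj_I]
        push_cast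
        ring
      refine local_ext boot3' (η₀ := max η 0) hℓ hlam hφ' hG hV (le_max_right _ _) ?_ ?_
      · rw [hRe]
        filter_upwards [hη] with w hw
        exact hw.trans (le_max_left _ _)
      · rw [← hc, hRe]
        rcases le_total η 0 with h0 | h0
        · rw [max_eq_right h0, mul_zero]; positivity
        · rw [max_eq_left h0]; exact hs
    obtain ⟨M, hM⟩ := bounded_of_all hall
    obtain ⟨ρ, C, hρ, hL⟩ := Pool.Agent.Y618.SC.loc hkap hseg hpar hpic φ G (lam / 4) ℓ M ha hℓ hφ'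
      hG hV hM
    obtain ⟨R', ψ, hR', hψ1, hψ2⟩ := Pool.Agent.Y903.SC.coef φ ℓ ρ C hℓ hρ hφ' hL
    rw [hRe] at hR' hψ2
    exact ⟨R', ψ, hR', hψ1, hψ2⟩

/-- the version for Taylor coefficients -/
theorem main_coef (hLO : S_LO2) {φ : ℂ → ℂ} {r R lam η L : ℝ} (hr : 1 < r) (hrR : r ≤ R)
    (hφ : DifferentiableOn ℂ φ (ball 0 R)) (hinj : InjOn φ (ball 0 r))
    (hlam : 0 < lam) (hS : Solvable (φ '' ball 0 1) lam)
    (hL : ∀ w : ℂ, ‖w‖ = R⁻¹ → ‖deriv φ w‖ ≤ L)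
    (hη : ∀ᶠ n : ℕ in atTop, ‖iteratedDeriv n φ 0 / (n.factorial : ℂ)‖ * R ^ n ≤ η)
    (hs : lam * L * η < 3 * R) :
    ∃ (R' : ℝ) (ψ : ℂ → ℂ), R < R' ∧ DifferentiableOn ℂ ψ (ball 0 R') ∧
        EqOn ψ φ (ball 0 R) := by
  have hR : 0 < R := by linarith
  have hη0 : 0 ≤ η := by
    obtain ⟨n, hn⟩ := hη.exists
    exact (by positivity : (0 : ℝ) ≤ ‖iteratedDeriv n φ 0 / (n.factorial : ℂ)‖ * R ^ n).trans hn
  have hL0 : 0 ≤ L := (norm_nonneg _).trans (hL ((R⁻¹ : ℝ) : ℂ) (by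
    rw [Complex.norm_real, Real.norm_of_nonneg (by positivity)]))
  have h1 : lam * L * (η * R) < 3 * R ^ 2 := by nlinarith
  obtain ⟨η', hη', hs'⟩ : ∃ η' : ℝ, η * R < η' ∧ lam * L * η' < 3 * R ^ 2 := by
    have hc : ContinuousAt (fun x : ℝ => lam * L * x) (η * R) := by fun_prop
    have h2 : ∀ᶠ x in 𝓝 (η * R), lam * L * x < 3 * R ^ 2 := hc.eventually (gt_mem_nhds h1)
    rw [Metric.eventually_nhds_iff] at h2
    obtain ⟨δ, hδ, h2⟩ := h2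
    refine ⟨η * R + δ / 2, by linarith, h2 ?_⟩
    rw [Real.dist_eq, add_sub_cancel_left, abs_of_pos (by positivity)]
    linarith
  obtain ⟨δ, hδ, hLO'⟩ := hLO φ R η hR hη0 hφ hη η' hη'
  refine (main hr hrR hφ hinj hlam hS).2 (fun w₁ hw₁ => ⟨η', ?_, ?_⟩)
  · have h3 : ∀ᶠ w in 𝓝 w₁, R - δ < ‖w‖ := by
      have : ContinuousAt (fun w : ℂ => ‖w‖) w₁ := by fun_prop
      exact this.eventually (lt_mem_nhds (show R - δ < ‖w₁‖ by rw [hw₁]; linarith))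
    filter_upwards [mem_nhdsWithin_of_mem_nhds h3, self_mem_nhdsWithin] with w hw1 hw2
    exact hLO' w (mem_ball_zero_iff.1 hw2) hw1
  · have h4 : ‖deriv φ (conj w₁)⁻¹‖ ≤ L := hL _ (by
      rw [norm_inv, RCLike.norm_conj, hw₁])
    have h5 : 0 < η' := (by positivity : 0 ≤ η * R).trans_lt hη'
    calc lam * ‖deriv φ (conj w₁)⁻¹‖ * η' ≤ lam * L * η' := by gcongr
      _ < _ := hs'

end Pool.Agent.Y251.SF
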