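import Pool.Agent.Y251.SF.Volt
import Pool.Agent.Y251.SF.Stm4

/-!
Local and global extension theorems at singularities of order at most `1 / dist` with a small
constant.
-/

set_option autoImplicit false

open Complex MeasureTheory Metric Set Filter Topology ComplexConjugate

namespace Pool.Agent.Y251.SF

open Pool.Agent.Y245.SC

/-- the growth hypothesis in the logarithmic coordinate -/
theorem growth_log {φ : ℂ → ℂ} {ℓ y1 η₀ : ℝ} (hη₀ : 0 ≤ η₀)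
    (h : ∀ᶠ w in 𝓝[ball 0 (Real.exp ℓ)] (Complex.exp ((ℓ : ℂ) + y1 * I)),
      (Real.exp ℓ - ‖w‖) * ‖φ w‖ ≤ η₀) :
    ∀ η' : ℝ, η₀ / Real.exp ℓ < η' → ∃ δ : ℝ, 0 < δ ∧ ∀ ω : ℂ, -ℓ < ω.re → ω.re < -ℓ + δ →
      |ω.im - y1| < δ → (ℓ + ω.re) * ‖Fc φ ω‖ ≤ η' := by
  intro η' hη'
  rw [eventually_nhdsWithin_iff, Metric.eventually_nhds_iff] at h
  obtain ⟨ε, hε, h⟩ := h
  have hm : Continuous (fun ω : ℂ => Complex.exp (-(conj ω))) := by fun_prop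
  have hm1 : Complex.exp (-(conj (((-ℓ : ℝ) : ℂ) + y1 * I))) = Complex.exp ((ℓ : ℂ) + y1 * I) := by
    congr 1
    simp only [map_add, map_mul, conj_ofReal, conj_I]
    push_cast
    ring
  have h1 : ∀ᶠ ω in 𝓝 (((-ℓ : ℝ) : ℂ) + y1 * I),
      dist (Complex.exp (-(conj ω))) (Complex.exp ((ℓ : ℂ) + y1 * I)) < ε := by
    have := hm.tendsto (((-ℓ : ℝ) : ℂ) + y1 * I)
    rw [hm1] at this
    exact (Metric.tendsto_nhds.1 this) ε hε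
  rw [Metric.eventually_nhds_iff] at h1
  obtain ⟨δ1, hδ1, h1⟩ := h1
  have h2 : ∀ᶠ d in 𝓝 (0 : ℝ), Real.exp d * (η₀ / Real.exp ℓ) < η' := by
    have hc : Continuous (fun d : ℝ => Real.exp d * (η₀ / Real.exp ℓ)) := by fun_prop
    have := hc.tendsto 0
    simp only [Real.exp_zero, one_mul] at this
    exact this.eventually (gt_mem_nhds hη')
  rw [Metric.eventually_nhds_iff] at h2
  obtain ⟨δ2, hδ2, h2⟩ := h2
  refine ⟨min (δ1 / 2) (δ2 / 2), by positivity, fun ω hω1 hω2 hω3 => ?_⟩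
  have hd1 : min (δ1 / 2) (δ2 / 2) ≤ δ1 / 2 := min_le_left _ _
  have hd2 : min (δ1 / 2) (δ2 / 2) ≤ δ2 / 2 := min_le_right _ _
  have hdist : dist ω (((-ℓ : ℝ) : ℂ) + y1 * I) < δ1 := by
    rw [dist_eq_norm]
    refine (norm_le_abs_re_add_abs_im _).trans_lt ?_
    have e1 : (ω - (((-ℓ : ℝ) : ℂ) + y1 * I)).re = ω.re + ℓ := by
      simp
    have e2 : (ω - (((-ℓ : ℝ) : ℂ) + y1 * I)).im = ω.im - y1 := by
      simp
    rw [e1, e2, abs_of_pos (by linarith : 0 < ω.re + ℓ)]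
    linarith
  have h3 := h1 hdist
  have hn : ‖Complex.exp (-(conj ω))‖ = Real.exp (-ω.re) := by
    rw [Complex.norm_exp]; simp
  have h4 := h h3 (by
    rw [mem_ball_zero_iff, hn]
    exact Real.exp_lt_exp.2 (by linarith))
  rw [hn] at h4
  have hF : ‖Fc φ ω‖ = ‖φ (Complex.exp (-(conj ω)))‖ := by
    rw [Fc, RCLike.norm_conj]
  rw [hF]
  set X := ‖φ (Complex.exp (-(conj ω)))‖ with hX
  have hX0 : 0 ≤ X := norm_nonneg _
  have h5 : ℓ + ω.re ≤ Real.exp ω.re * (Real.exp ℓ - Real.exp (-ω.re)) := by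
    have e : Real.exp ω.re * (Real.exp ℓ - Real.exp (-ω.re)) = Real.exp (ℓ + ω.re) - 1 := by
      rw [mul_sub, ← Real.exp_add, ← Real.exp_add, add_neg_cancel, Real.exp_zero, add_comm]
    rw [e]
    linarith [Real.add_one_le_exp (ℓ + ω.re)]
  have h6 : (ℓ + ω.re) * X ≤ Real.exp ω.re * η₀ := by
    calc (ℓ + ω.re) * X ≤ Real.exp ω.re * (Real.exp ℓ - Real.exp (-ω.re)) * X :=
          mul_le_mul_of_nonneg_right h5 hX0
      _ = Real.exp ω.re * ((Real.exp ℓ - Real.exp (-ω.re)) * X) := by ring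
      _ ≤ _ := mul_le_mul_of_nonneg_left h4 (Real.exp_pos _).le
  have h7 : Real.exp ω.re * η₀ = Real.exp (ω.re + ℓ) * (η₀ / Real.exp ℓ) := by
    rw [Real.exp_add]
    field_simp
  have h8 := h2 (y := ω.re + ℓ) (by
    rw [Real.dist_eq, sub_zero, abs_of_pos (by linarith)]
    linarith)
  linarith

/-- LOCAL theorem, logarithmic form -/
theorem local_ext (hB : S_BOOT3) {φ G : ℂ → ℂ} {ℓ lam y1 η₀ : ℝ} (hℓ : 0 < ℓ) (hlam : 0 < lam)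
    (hφ : DifferentiableOn ℂ φ (ball 0 (Real.exp ℓ))) (hG : DifferentiableOn ℂ G (ball 0 1))
    (hV : Volt (lam / 4) ℓ φ G) (hη₀ : 0 ≤ η₀)
    (h : ∀ᶠ w in 𝓝[ball 0 (Real.exp ℓ)] (Complex.exp ((ℓ : ℂ) + y1 * I)),
      (Real.exp ℓ - ‖w‖) * ‖φ w‖ ≤ η₀)
    (hs : lam * ‖deriv φ (Complex.exp (((-ℓ : ℝ) : ℂ) + y1 * I))‖ * η₀ < 3 * Real.exp ℓ ^ 2) :
    ∃ δ M : ℝ, 0 < δ ∧ ∀ ω : ℂ, -ℓ < ω.re → ω.re ≤ 0 → |ω.im - y1| < δ → ‖Fc φ ω‖ ≤ M := by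
  refine hB φ G (lam / 4) ℓ (η₀ / Real.exp ℓ) y1 (by positivity) hℓ (by positivity) hφ hG hV ?_
    (growth_log hη₀ h)
  have hn : ‖Complex.exp (((-ℓ : ℝ) : ℂ) + y1 * I)‖ = (Real.exp ℓ)⁻¹ := by
    rw [Complex.norm_exp, ← Real.exp_neg]
    simp
  rw [norm_mul, hn]
  set D := ‖deriv φ (Complex.exp (((-ℓ : ℝ) : ℂ) + y1 * I))‖
  have he := Real.exp_pos ℓ
  have e : lam / 4 * (D * (Real.exp ℓ)⁻¹) * (η₀ / Real.exp ℓ) = (lam * D * η₀) / (4 * Real.exp ℓ ^ 2) := by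
    field_simp
  rw [e, div_lt_iff₀ (by positivity)]
  linarith

theorem bounded_of_all {φ : ℂ → ℂ} {ℓ : ℝ}
    (h : ∀ y1 : ℝ, ∃ δ M : ℝ, 0 < δ ∧ ∀ ω : ℂ, -ℓ < ω.re → ω.re ≤ 0 → |ω.im - y1| < δ →
      ‖Fc φ ω‖ ≤ M) :
    ∃ M : ℝ, ∀ ω : ℂ, -ℓ < ω.re → ω.re ≤ 0 → ‖Fc φ ω‖ ≤ M := by
  have key : ∃ M : ℝ, ∀ y ∈ Icc (-Real.pi) Real.pi, ∀ ω : ℂ, -ℓ < ω.re → ω.re ≤ 0 → ω.im = y →
      ‖Fc φ ω‖ ≤ M := by
    refine isCompact_Icc.induction_on (p := fun s => ∃ M : ℝ, ∀ y ∈ s, ∀ ω : ℂ, -ℓ < ω.re →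
      ω.re ≤ 0 → ω.im = y → ‖Fc φ ω‖ ≤ M) ⟨0, fun y hy => absurd hy (by simp)⟩ ?_ ?_ ?_
    · rintro s t hst ⟨M, hM⟩
      exact ⟨M, fun y hy => hM y (hst hy)⟩
    · rintro s t ⟨M, hM⟩ ⟨M', hM'⟩
      refine ⟨max M M', fun y hy ω h1 h2 h3 => ?_⟩
      rcases hy with hy | hy
      · exact (hM y hy ω h1 h2 h3).trans (le_max_left _ _)
      · exact (hM' y hy ω h1 h2 h3).trans (le_max_right _ _)
    · intro y1 _
      obtain ⟨δ, M, hδ, hM⟩ := h y1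
      refine ⟨ball y1 δ, mem_nhdsWithin_of_mem_nhds (ball_mem_nhds y1 hδ), M, ?_⟩
      intro y hy ω h1 h2 h3
      refine hM ω h1 h2 ?_
      rw [h3]
      simpa [Real.dist_eq] using hy
  obtain ⟨M, hM⟩ := key
  refine ⟨M, fun ω h1 h2 => ?_⟩
  have hw0 : Complex.exp (-(conj ω)) ≠ 0 := Complex.exp_ne_zero _
  have hlog : Real.log ‖Complex.exp (-(conj ω))‖ = -ω.re := by
    rw [Complex.norm_exp, Real.log_exp]; simp
  have h3 : Fc φ ⟨ω.re, Complex.arg (Complex.exp (-(conj ω)))⟩ = Fc φ ω := by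
    unfold Fc
    congr 2
    have e : -(conj (⟨ω.re, Complex.arg (Complex.exp (-(conj ω)))⟩ : ℂ)) =
        Complex.log (Complex.exp (-(conj ω))) := by
      apply Complex.ext
      · rw [Complex.log_re, hlog]; simp
      · rw [Complex.log_im]; simp
    rw [e, Complex.exp_log hw0]
  rw [← h3]
  exact hM _ ⟨(Complex.neg_pi_lt_arg _).le, Complex.arg_le_pi _⟩ _ h1 h2 rfl

end Pool.Agent.Y251.SF
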