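import Pool.Agent.Y251.SF.Stm3
import Pool.Agent.Y769.SC.Kap
import Pool.Agent.Y769.SC.Nz
import Pool.Agent.Y50.SC.Disc
import Pool.Agent.Y287.SC.Weak
import Pool.Agent.Y281.SC.Vek
import Pool.Agent.Y975.SC.Ser
import Pool.Agent.Y257.SC.Circ
import Pool.Agent.Y257.SC.CircB
import Pool.Agent.Y87.SC.Seg
import Pool.Agent.Y769.SC.Par
import Pool.Agent.Y657.SC.Zhol
import Pool.Agent.Y532.SC.Zper
import Pool.Agent.Y664.SC.ZMom
import Pool.Agent.Y458.SC.ExtT
import Pool.Agent.Y381.SC.Pic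
import Pool.Agent.Y618.SC.Loc
import Pool.Agent.Y903.SC.Coef
import Pool.Agent.Y79.SC.Loc2
import Pool.Agent.Y427.SC.Tr

/-!
The Volterra equation for the reflected Riemann map of a Schiffer domain.
-/

set_option autoImplicit false

open Complex MeasureTheory Metric Set Filter Topology ComplexConjugate

namespace Pool.Agent.Y251.SF

open Pool.Agent.Y245.SC
open Pool.Agent.TH298.Sch (Sol)

/-- solvability of (S) gives the Volterra equation -/
theorem volt_of_solvable {φ : ℂ → ℂ} {ℓ r lam : ℝ} (hr : 1 < r) (hrR : r ≤ Real.exp ℓ)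
    (hφ : DifferentiableOn ℂ φ (ball 0 (Real.exp ℓ))) (hinj : InjOn φ (ball 0 r))
    (hlam : 0 < lam) (hS : Solvable (φ '' ball 0 1) lam) :
    ∃ G : ℂ → ℂ, DifferentiableOn ℂ G (ball 0 1) ∧ Volt (lam / 4) ℓ φ G := by
  have hℓ : 0 < ℓ := by
    by_contra h
    have := Real.exp_le_one_iff.2 (not_lt.1 h)
    linarith
  have ha : 0 < lam / 4 := by positivity
  have hφr : DifferentiableOn ℂ φ (ball 0 r) := hφ.mono (ball_subset_ball hrR)
  have hcont : ContinuousOn φ (closedBall 0 1) :=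
    hφr.continuousOn.mono (closedBall_subset_ball hr)
  have hbd : Bornology.IsBounded (φ '' ball 0 1) :=
    ((isCompact_closedBall (0 : ℂ) 1).image_of_continuousOn hcont).isBounded.subset
      (image_mono ball_subset_closedBall)
  have hopen : IsOpen (φ '' ball 0 1) := by
    have han : AnalyticOnNhd ℂ φ (ball 0 1) :=
      (hφr.mono (ball_subset_ball hr.le)).analyticOnNhd isOpen_ball
    rcases han.is_constant_or_isOpen (convex_ball 0 1).isPreconnected with ⟨w, hw⟩ | h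
    · exfalso
      have h1 : (0 : ℂ) ∈ ball (0 : ℂ) r := mem_ball_self (by linarith)
      have h2 : (1 / 2 : ℂ) ∈ ball (0 : ℂ) r := by
        rw [mem_ball_zero_iff]; norm_num; linarith
      have h3 := hinj h1 h2 (by
        rw [hw 0 (mem_ball_self one_pos), hw (1 / 2) (by rw [mem_ball_zero_iff]; norm_num)])
      norm_num at h3
    · exact h _ Subset.rfl isOpen_ball
  obtain ⟨c, u, G0, hu, hG, h1, h2, hu0⟩ := hS
  have hsol : Sol (φ '' ball 0 1) lam c u G0 := ⟨hu, hG, h1, h2⟩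
  have hc : c ≠ 0 := hsol.c_ne hbd hopen.measurableSet hlam hu0
  have hser := Pool.Agent.Y975.SC.Ser.ser Pool.Agent.Y50.SC.disc Pool.Agent.Y287.SC.chg
    Pool.Agent.Y287.SC.weak (Pool.Agent.Y281.SC.vek Pool.Agent.Y769.SC.nz) φ r lam c u G0 hr hlam hc
    hφr hinj hsol
  have hkap := Pool.Agent.Y769.SC.kap
  have hseg := Pool.Agent.Y87.SC.Seg.seg_thm
  have hpar := Pool.Agent.Y769.SC.par
  have h1 := Pool.Agent.Y257.SC.ione hkap φ r (lam / 4) hr ha hφr hser
  have h2 := Pool.Agent.Y257.SC.itwo hseg hkap φ r (lam / 4) hr ha hφr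
    (Pool.Agent.Y769.SC.nz φ r hφr hinj) hser
  obtain ⟨G, hG1, hG2⟩ := Pool.Agent.Y458.SC.t_EXT (Zf (lam / 4) φ) ℓ hℓ
    (Pool.Agent.Y657.SC.zhol hkap hpar φ (lam / 4) ℓ ha hℓ hφ)
    (Pool.Agent.Y532.SC.zper hkap hseg φ (lam / 4) ℓ ha hℓ hφ h1)
    (Pool.Agent.Y664.SC.zmom hkap hseg φ (lam / 4) ℓ ha hℓ hφ h1 h2)
  refine ⟨G, hG1, fun ω hω1 hω2 => ?_⟩
  rw [← hG2 ω hω1 hω2, Zf, sub_add_cancel]

end Pool.Agent.Y251.SF
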